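import Mathlib

/-! Pure interval counting lemma: union of windows of the marks of a run. -/

namespace LV53

/-- weight of a mark of type `a`. -/
def wt (L g a : ℕ) : ℕ := if a = 0 then L - g else 1

/-- window of the mark `(z, a)`: the `L - g + a` positions before `z`. -/
def win (L g : ℕ) (m : ℕ × ℕ) : Finset ℕ := Finset.Ico (m.1 - (L - g + m.2)) m.1

theorem sum_wt_le (L g : ℕ) (K : Finset (ℕ × ℕ)) (A : ℕ)
    (hA : ∀ m ∈ K, m.2 ≤ A)
    (hinj : ∀ m ∈ K, ∀ m' ∈ K, m.2 = m'.2 → m = m') :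
    ∑ m ∈ K, wt L g m.2 ≤ (L - g) + A := by
  have h1 : ∑ m ∈ K, wt L g m.2 = ∑ a ∈ K.image Prod.snd, wt L g a := by
    rw [Finset.sum_image]
    intro m hm m' hm' h
    exact hinj m hm m' hm' h
  have h2 : ∑ a ∈ K.image Prod.snd, wt L g a ≤ ∑ a ∈ Finset.range (A + 1), wt L g a := by
    apply Finset.sum_le_sum_of_subset
    intro a ha
    obtain ⟨m, hm, rfl⟩ := Finset.mem_image.1 ha
    exact Finset.mem_range.2 (Nat.lt_succ_of_le (hA m hm))
  have h3 : ∑ a ∈ Finset.range (A + 1), wt L g a = (L - g) + A := by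
    rw [Finset.sum_range_succ']
    have : ∑ k ∈ Finset.range A, wt L g (k + 1) = A := by
      rw [Finset.sum_congr rfl (g := fun _ => 1)]
      · simp
      · intro k _
        simp [wt]
    rw [this]
    simp [wt]
    omega
  omega

/-- **Union lemma.**  Marks `(z, a)` with `a ≤ g < L`; marks of the same type are at distance
`≥ L`; the window of a mark consists of the `L - g + a` positions before it.  The union of the
windows has at least `(L - g) * #(type 0) + #(type ≥ 1)` elements. -/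
theorem union_lemma (L g : ℕ) (hg : g < L) (M : Finset (ℕ × ℕ))
    (htype : ∀ m ∈ M, m.2 ≤ g)
    (hpos : ∀ m ∈ M, L - g + m.2 ≤ m.1)
    (hsep : ∀ m ∈ M, ∀ m' ∈ M, m.2 = m'.2 → m.1 < m'.1 → m.1 + L ≤ m'.1) :
    ∑ m ∈ M, wt L g m.2 ≤ (M.biUnion (win L g)).card := by
  classical
  induction h : M.card using Nat.strong_induction_on generalizing M with
  | _ n ih =>
  rcases M.eq_empty_or_nonempty with rfl | hne
  · simp
  obtain ⟨m1, hm1, hmax⟩ := M.exists_max_image Prod.fst hne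
  set U := M.biUnion (win L g) with hU
  -- the cut point
  have hex : ∃ lo, (∀ x, lo ≤ x → x < m1.1 → x ∈ U) ∧ m1.1 ≤ lo + L :=
    ⟨m1.1, fun x h1 h2 => absurd h2 (not_lt.2 h1), by omega⟩
  classical
  set lo := Nat.find hex with hlo
  obtain ⟨hcov, hL⟩ := Nat.find_spec hex
  rw [← hlo] at hcov hL
  have hlo_le : lo ≤ m1.1 - (L - g + m1.2) := by
    apply Nat.find_min' hex
    refine ⟨fun x h1 h2 => ?_, ?_⟩
    · rw [hU]
      exact Finset.mem_biUnion.2 ⟨m1, hm1, Finset.mem_Ico.2 ⟨h1, h2⟩⟩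
    · have := htype m1 hm1
      have := hpos m1 hm1
      omega
  have hlt : lo < m1.1 := by
    have := hpos m1 hm1
    omega
  set K := M.filter (fun m => lo < m.1) with hK
  have hKM : K ⊆ M := Finset.filter_subset _ _
  have hm1K : m1 ∈ K := Finset.mem_filter.2 ⟨hm1, hlt⟩
  have hinj : ∀ m ∈ K, ∀ m' ∈ K, m.2 = m'.2 → m = m' := by
    intro m hm m' hm' he
    obtain ⟨hmM, hml⟩ := Finset.mem_filter.1 hm
    obtain ⟨hmM', hml'⟩ := Finset.mem_filter.1 hm'
    have a1 := hmax m hmM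
    have a2 := hmax m' hmM'
    rcases lt_trichotomy m.1 m'.1 with h1 | h1 | h1
    · have := hsep m hmM m' hmM' he h1
      omega
    · exact Prod.ext h1 he
    · have := hsep m' hmM' m hmM he.symm h1
      omega
  -- the largest type in K
  obtain ⟨ms, hms, hmsmax⟩ := K.exists_max_image Prod.snd ⟨m1, hm1K⟩
  have hw : ∑ m ∈ K, wt L g m.2 ≤ (L - g) + ms.2 := sum_wt_le L g K ms.2 hmsmax hinj
  have hkey : (L - g) + ms.2 ≤ m1.1 - lo := by
    obtain ⟨hmsM, hmsl⟩ := Finset.mem_filter.1 hms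
    rcases Nat.lt_or_ge m1.1 (lo + L) with hc | hc
    · by_contra hcon
      have hstart : ms.1 - (L - g + ms.2) < lo := by
        have h1 := hmax ms hmsM
        have h2 := hpos ms hmsM
        omega
      have hlo1 : 1 ≤ lo := by omega
      have : lo ≤ lo - 1 := by
        apply Nat.find_min' hex
        refine ⟨fun x h1 h2 => ?_, by omega⟩
        rcases Nat.lt_or_ge x lo with h3 | h3
        · rw [hU]
          refine Finset.mem_biUnion.2 ⟨ms, hmsM, Finset.mem_Ico.2 ⟨?_, ?_⟩⟩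
          · omega
          · omega
        · exact hcov x h3 h2
      omega
    · have := htype ms hmsM
      omega
  -- the rest
  have hrest : ∑ m ∈ M \ K, wt L g m.2 ≤ ((M \ K).biUnion (win L g)).card := by
    apply ih (M \ K).card ?_ (M \ K) ?_ ?_ ?_ rfl
    · rw [← h]
      apply Finset.card_lt_card
      refine ⟨Finset.sdiff_subset, fun hsub => ?_⟩
      have := Finset.mem_sdiff.1 (hsub hm1)
      exact this.2 hm1K
    · exact fun m hm => htype m (Finset.mem_sdiff.1 hm).1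
    · exact fun m hm => hpos m (Finset.mem_sdiff.1 hm).1
    · exact fun m hm m' hm' => hsep m (Finset.mem_sdiff.1 hm).1 m' (Finset.mem_sdiff.1 hm').1
  have hsub : (M \ K).biUnion (win L g) ∪ Finset.Ico lo m1.1 ⊆ U := by
    intro x hx
    rcases Finset.mem_union.1 hx with hx | hx
    · obtain ⟨m, hm, hxm⟩ := Finset.mem_biUnion.1 hx
      rw [hU]
      exact Finset.mem_biUnion.2 ⟨m, (Finset.mem_sdiff.1 hm).1, hxm⟩
    · obtain ⟨h1, h2⟩ := Finset.mem_Ico.1 hx
      exact hcov x h1 h2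
  have hdisj : Disjoint ((M \ K).biUnion (win L g)) (Finset.Ico lo m1.1) := by
    rw [Finset.disjoint_left]
    intro x hx hx2
    obtain ⟨m, hm, hxm⟩ := Finset.mem_biUnion.1 hx
    obtain ⟨hmM, hmK⟩ := Finset.mem_sdiff.1 hm
    obtain ⟨_, h2⟩ := Finset.mem_Ico.1 hxm
    obtain ⟨h3, _⟩ := Finset.mem_Ico.1 hx2
    have : ¬ lo < m.1 := fun h4 => hmK (Finset.mem_filter.2 ⟨hmM, h4⟩)
    omega
  have hcard := Finset.card_le_card hsub
  rw [Finset.card_union_of_disjoint hdisj, Nat.card_Ico] at hcard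
  have hsum : ∑ m ∈ M, wt L g m.2 = ∑ m ∈ M \ K, wt L g m.2 + ∑ m ∈ K, wt L g m.2 :=
    (Finset.sum_sdiff hKM).symm
  omega

end LV53
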